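import Pool.Agent.Lib.MP_86e34a_co.Defs
import Pool.Agent.Lib.MP_86e34a_co.Main

set_option autoImplicit false

namespace Pool.Agent.Results.MP_86e34a_co.PentagonsNotTight

open Pool.Agent.Lib.MP_86e34a_co

/-- For all `C₀, C > 0` there are `c > 0` and `n₀` such that for every `n ≥ n₀` there are integers
`m` with `n ^ (11 / 6) ≤ m ≤ c * n ^ 2`, and each of them satisfies
`C₀ * n ^ (3 / 2) < m < n ^ 2 / C₀` while every linear 3-graph with `n` vertices and `m` edges has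
more than `C * m ^ 6 / n ^ 7` pentagons. -/
theorem result :
    ∀ C₀ C : ℝ, 0 < C₀ → 0 < C →
      ∃ c : ℝ, 0 < c ∧ ∃ n₀ : ℕ, ∀ n : ℕ, n₀ ≤ n →
        (∃ m : ℕ, (n : ℝ) ^ ((11 : ℝ) / 6) ≤ m ∧ (m : ℝ) ≤ c * (n : ℝ) ^ 2) ∧
        ∀ m : ℕ, (n : ℝ) ^ ((11 : ℝ) / 6) ≤ m → (m : ℝ) ≤ c * (n : ℝ) ^ 2 →
          (C₀ * (n : ℝ) ^ ((3 : ℝ) / 2) < m ∧ (m : ℝ) < (n : ℝ) ^ 2 / C₀) ∧
          ∀ H : Finset (Finset (Fin n)), IsTripleSystem H → IsLinear H → H.card = m →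
            C * (m : ℝ) ^ 6 / (n : ℝ) ^ 7 < pentagonCount H :=
  main_result

end Pool.Agent.Results.MP_86e34a_co.PentagonsNotTight
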